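import Mathlib
import Pool.Agent.Helper73.EventualEqualityProof

set_option autoImplicit false

/-!
Graph pebbling: for every connected graph `G` with `n` vertices and diameter `d`, and every
`k ≥ 2 ^ (d + 1) * n ^ 2`, one has `π(G, C_k) = π_k(G)`.
-/

namespace Pool.Agent.Results.MP_048d5b_co.EventualEquality

open Finset

variable {V : Type}

/-- One pebbling step from `C` to `C'`: along an edge `u v` with `C u ≥ 2`, two pebbles are removed
from `u` and one pebble is added to `v`. -/
def Step (G : SimpleGraph V) (C C' : V → ℕ) : Prop :=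
  ∃ u v, G.Adj u v ∧ 2 ≤ C u ∧ C' u = C u - 2 ∧ C' v = C v + 1 ∧
    ∀ w, w ≠ u → w ≠ v → C' w = C w

/-- `C` is `D`-solvable: some finite sequence of pebbling steps turns `C` into some `C' ≥ D`. -/
def Solvable (G : SimpleGraph V) (C D : V → ℕ) : Prop :=
  ∃ C', Relation.ReflTransGen (Step G) C C' ∧ ∀ v, D v ≤ C' v

/-- The size (total number of pebbles) of a configuration. -/
def size [Fintype V] (C : V → ℕ) : ℕ := ∑ v, C v

/-- `π(G, 𝒟)`: the least `t` such that every configuration of size `t` is `D`-solvable for each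
`D ∈ 𝒟`. -/
noncomputable def pebblingNumber [Fintype V] (G : SimpleGraph V) (𝒟 : Set (V → ℕ)) : ℕ :=
  sInf {t | ∀ C : V → ℕ, size C = t → ∀ D ∈ 𝒟, Solvable G C D}

/-- The set of all configurations of size `k`. -/
def sizeTargets (V : Type) [Fintype V] (k : ℕ) : Set (V → ℕ) := {D | size D = k}

/-- The set of all configurations with `k` pebbles on one vertex and none elsewhere. -/
def foldTargets (V : Type) (k : ℕ) : Set (V → ℕ) := {D | ∃ v, D v = k ∧ ∀ w, w ≠ v → D w = 0}

/-- **Eventual equality.** For every finite connected graph `G` with `n` vertices and diameter `d`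
and every `k ≥ 2 ^ (d + 1) * n ^ 2`, `π(G, C_k) = π_k(G)`. -/
theorem result (V : Type) [Fintype V] (G : SimpleGraph V) (hG : G.Connected) (k : ℕ)
    (hk : 2 ^ (G.diam + 1) * Fintype.card V ^ 2 ≤ k) :
    pebblingNumber G (sizeTargets V k) = pebblingNumber G (foldTargets V k) :=
  Helper73.EE.main V G hG k hk

end Pool.Agent.Results.MP_048d5b_co.EventualEquality
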