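import Mathlib
import Pool.Agent.Helper18.Peb.Final

set_option autoImplicit false

/-!
Graph pebbling: the equality `π(G, C_k) = π_k(G)` fails for `k = 2` and some finite connected graph `G`.

The graph: `p = 1024` rows and `1024` columns, each with a gate joined by a path of length `104` to a hub
`u` (rows) or `v` (columns); `u` and `v` are joined by a path of length `10`. In each cell there are
`2^94 + 2^82` stars; the centre of a star is joined to its own row gate and its own column gate by
paths of length `34`, to all other gates by paths of length `35`, and it has a tail of length `60`. The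
configuration with `2^95 - 1` pebbles on the end of each tail cannot put one pebble on `u` and one on
`v`, but every configuration of the same size can put two pebbles on any given vertex.
-/

namespace Pool.Agent.Results.MP_048d5b_co.TargetFails

variable {V : Type}

/-- One pebbling step from `C` to `C'`: along an edge `u v` with `C u ≥ 2`, two pebbles are removed
from `u` and one pebble is added to `v`. -/
def Step (G : SimpleGraph V) (C C' : V → ℕ) : Prop :=
  ∃ u v, G.Adj u v ∧ 2 ≤ C u ∧ C' u = C u - 2 ∧ C' v = C v + 1 ∧
    ∀ w, w ≠ u → w ≠ v → C' w = C w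

/-- `C` is `D`-solvable: some finite sequence of pebbling steps turns `C` into some `C' ≥ D`. -/
def Solvable (G : SimpleGraph V) (C D : V → ℕ) : Prop :=
  ∃ C', Relation.ReflTransGen (Step G) C C' ∧ ∀ v, D v ≤ C' v

/-- The size (total number of pebbles) of a configuration. -/
def size [Fintype V] (C : V → ℕ) : ℕ := ∑ v, C v

/-- `t = π(G, 𝒟)`: `t` is the least natural number such that every configuration of size `t` is
`D`-solvable for each `D ∈ 𝒟`. -/
def IsPebblingNumber [Fintype V] (G : SimpleGraph V) (𝒟 : Set (V → ℕ)) (t : ℕ) : Prop :=
  IsLeast {t | ∀ C : V → ℕ, size C = t → ∀ D ∈ 𝒟, Solvable G C D} t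

/-- The set of all configurations of size `k`. -/
def sizeTargets (V : Type) [Fintype V] (k : ℕ) : Set (V → ℕ) := {D | size D = k}

/-- The set of all configurations with `k` pebbles on one vertex and none elsewhere. -/
def foldTargets (V : Type) (k : ℕ) : Set (V → ℕ) := {D | ∃ v, D v = k ∧ ∀ w, w ≠ v → D w = 0}

/-- **The target conjecture fails.** There is a finite connected graph `G` with
`π_2(G) < π(G, C_2)`. -/
theorem result : ∃ (V : Type) (_ : Fintype V) (G : SimpleGraph V), G.Connected ∧
    ∃ a b : ℕ, IsPebblingNumber G (foldTargets V 2) a ∧ IsPebblingNumber G (sizeTargets V 2) b ∧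
      a < b := by
  obtain ⟨V, hV, G, hG, a, b, hab, ha, hb⟩ := Pool.Agent.Helper18.Peb.main
  exact ⟨V, hV, G, hG, a, b, ha, hb, hab⟩

end Pool.Agent.Results.MP_048d5b_co.TargetFails
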